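import Mathlib

set_option autoImplicit false

namespace Pool.Agent.Results.MP_2beb52_al.BaseSizeGap

/-- A base of an action: a set of points whose pointwise stabilizer is trivial. -/
def IsBase (G S : Type) [Group G] [MulAction G S] (B : Finset S) : Prop :=
  ∀ g : G, (∀ x ∈ B, g • x = x) → g = 1

/-- The base size: the least cardinality of a base. -/
noncomputable def baseSize (G S : Type) [Group G] [MulAction G S] : ℕ :=
  sInf {n | ∃ B : Finset S, B.card = n ∧ IsBase G S B}

/-- The base size set `𝓑(G)`: the base sizes of all faithful actions on finite sets. -/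
def baseSizeSet (G : Type) [Group G] : Set ℕ :=
  {n | ∃ (S : Type) (_ : Finite S) (_ : MulAction G S), FaithfulSMul G S ∧ baseSize G S = n}

/-- the field with 16 elements as an additive group -/
abbrev V : Type := ZMod 2 × ZMod 2 × ZMod 2 × ZMod 2

/-- multiplication by a fifth root of unity -/
def A (v : V) : V := (v.2.2.2, v.1 + v.2.2.2, v.2.1 + v.2.2.2, v.2.2.1 + v.2.2.2)

/-- its powers -/
def act (i : ZMod 5) (v : V) : V := A^[i.val] v

lemma act_zero (v : V) : act 0 v = v := rfl
lemma act_add (i j : ZMod 5) (v : V) : act (i + j) v = act i (act j v) := by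
  revert i j v; decide
lemma act_lin (i : ZMod 5) (v w : V) : act i (v + w) = act i v + act i w := by
  revert i v w; decide
lemma act_map_zero (i : ZMod 5) : act i 0 = 0 := by revert i; decide
lemma act_neg_cancel (i : ZMod 5) (v : V) : act i (act (-i) v) = v := by
  rw [← act_add, add_neg_cancel, act_zero]
lemma act_neg_cancel' (i : ZMod 5) (v : V) : act (-i) (act i v) = v := by
  rw [← act_add, neg_add_cancel, act_zero]

/-- the group `𝔽₁₆ ⋊ C₅` of order 80 -/
@[ext] structure Gp where
  v : V
  i : ZMod 5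
  deriving DecidableEq

instance : Fintype Gp := Fintype.ofEquiv (V × ZMod 5)
  ⟨fun p => ⟨p.1, p.2⟩, fun g => (g.v, g.i), fun _ => rfl, fun _ => rfl⟩

instance : Mul Gp := ⟨fun g h => ⟨g.v + act g.i h.v, g.i + h.i⟩⟩
instance : One Gp := ⟨⟨0, 0⟩⟩
instance : Inv Gp := ⟨fun g => ⟨-act (-g.i) g.v, -g.i⟩⟩

lemma mul_v (g h : Gp) : (g * h).v = g.v + act g.i h.v := rfl
lemma mul_i (g h : Gp) : (g * h).i = g.i + h.i := rfl
lemma one_v : (1 : Gp).v = 0 := rfl
lemma one_i : (1 : Gp).i = 0 := rfl
lemma inv_v (g : Gp) : (g⁻¹).v = -act (-g.i) g.v := rfl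
lemma inv_i (g : Gp) : (g⁻¹).i = -g.i := rfl

instance : Group Gp := Group.ofLeftAxioms
  (by
    intro a b c
    ext1
    · rw [mul_v, mul_v, mul_v, mul_v, mul_i, act_lin, act_add, add_assoc]
    · rw [mul_i, mul_i, mul_i, mul_i, add_assoc])
  (by
    intro a
    ext1
    · rw [mul_v, one_v, one_i, act_zero, zero_add]
    · rw [mul_i, one_i, zero_add])
  (by
    intro a
    ext1
    · rw [mul_v, inv_v, inv_i, one_v, neg_add_cancel]
    · rw [mul_i, inv_i, one_i, neg_add_cancel])

/-- the normal subgroup `𝔽₁₆` -/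
def N : Subgroup Gp where
  carrier := {g | g.i = 0}
  mul_mem' := by
    intro a b ha hb
    change (a * b).i = 0
    rw [mul_i, ha, hb, add_zero]
  one_mem' := one_i
  inv_mem' := by
    intro a ha
    change (a⁻¹).i = 0
    rw [inv_i, ha, neg_zero]

lemma mem_N (g : Gp) : g ∈ N ↔ g.i = 0 := Iff.rfl

lemma card_N : Nat.card N = 16 := by
  have e : N ≃ V := ⟨fun g => g.1.v, fun v => ⟨⟨v, 0⟩, rfl⟩, by
    rintro ⟨g, hg⟩
    apply Subtype.ext
    ext1
    · rfl
    · exact hg.symm, fun v => rfl⟩
  rw [Nat.card_congr e, Nat.card_eq_fintype_card]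
  decide

/-- auxiliary test -/
def good (a b : V) (j : ZMod 5) : Bool :=
  decide (∀ c ∈ ({0, a, b, a + b} : Finset V), act j c ∈ ({0, a, b, a + b} : Finset V) → c = 0)

lemma key_good : ∀ a b : V, ∃ j : ZMod 5, good a b j = true := by
  decide

lemma key_planes' (a b : V) : ∃ j : ZMod 5, ∀ c ∈ ({0, a, b, a + b} : Finset V),
    act j c ∈ ({0, a, b, a + b} : Finset V) → c = 0 := by
  obtain ⟨j, hj⟩ := key_good a b
  exact ⟨j, of_decide_eq_true hj⟩

lemma key_planes (a b : V) : ∃ j : ZMod 5, ∀ c : V, (c = 0 ∨ c = a ∨ c = b ∨ c = a + b) →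
    (act j c = 0 ∨ act j c = a ∨ act j c = b ∨ act j c = a + b) → c = 0 := by
  obtain ⟨j, hj⟩ := key_planes' a b
  refine ⟨j, fun c h1 h2 => hj c (by simpa using h1) (by simpa using h2)⟩

lemma key_orbit : ∀ (i : ZMod 5) (w : V), i ≠ 0 → w ≠ 0 → ({w, act i w, act i (act i w),
    act i (act i (act i w)), act i (act i (act i (act i w)))} : Finset V).card = 5 := by
  decide

/-- if `H ∩ N` is small then two points of the orbit form a base. -/
lemma two_points (H : Subgroup Gp) (hH : Nat.card (H.subgroupOf N) ≤ 4) :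
    ∃ g : Gp, ∀ k : Gp, k ∈ H → g⁻¹ * k * g ∈ H → k = 1 := by
  classical
  -- the subset of `V`
  let T : Finset V := Finset.univ.filter fun v => (⟨v, 0⟩ : Gp) ∈ H
  have hT : ∀ v, v ∈ T ↔ (⟨v, 0⟩ : Gp) ∈ H := fun v => by simp [T]
  have hTcard : T.card ≤ 4 := by
    have e : (H.subgroupOf N) ≃ T := ⟨fun g => ⟨g.1.1.v, (hT _).2 (by
        have h1 : (g.1.1 : Gp) ∈ H := g.2
        have h2 : g.1.1.i = 0 := g.1.2
        have : (⟨g.1.1.v, 0⟩ : Gp) = g.1.1 := by
          ext1
          · rfl
          · exact h2.symm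
        rw [this]; exact h1)⟩, fun v => ⟨⟨⟨v.1, 0⟩, rfl⟩, (hT _).1 v.2⟩, by
      rintro ⟨⟨g, hg⟩, hg'⟩
      apply Subtype.ext
      apply Subtype.ext
      ext1
      · rfl
      · exact hg.symm, fun v => rfl⟩
    rw [Nat.card_congr e, Nat.card_eq_fintype_card, Fintype.card_coe] at hH
    exact hH
  have hT0 : (0 : V) ∈ T := (hT 0).2 H.one_mem
  have hTadd : ∀ a ∈ T, ∀ b ∈ T, a + b ∈ T := by
    intro a ha b hb
    have := H.mul_mem ((hT a).1 ha) ((hT b).1 hb)
    exact (hT _).2 this
  by_cases hle : H ≤ N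
  · -- `H` is a subspace
    have hab : ∃ a b : V, ∀ v ∈ T, v = 0 ∨ v = a ∨ v = b ∨ v = a + b := by
      by_cases h1 : ∃ a ∈ T, a ≠ 0
      · obtain ⟨a, ha, ha0⟩ := h1
        by_cases h2 : ∃ b ∈ T, b ≠ 0 ∧ b ≠ a
        · obtain ⟨b, hb, hb0, hba⟩ := h2
          refine ⟨a, b, ?_⟩
          have hsub : ({0, a, b, a + b} : Finset V) ⊆ T := by
            intro x hx
            simp only [Finset.mem_insert, Finset.mem_singleton] at hx
            rcases hx with rfl | rfl | rfl | rfl
            · exact hT0
            · exact ha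
            · exact hb
            · exact hTadd a ha b hb
          have hcard : ({0, a, b, a + b} : Finset V).card = 4 := by
            have hneg : ∀ x : V, x + x = 0 := by decide
            rw [Finset.card_insert_of_notMem, Finset.card_insert_of_notMem,
              Finset.card_insert_of_notMem, Finset.card_singleton]
            · rw [Finset.mem_singleton]
              intro h
              apply ha0
              have : a + b = b := h.symm
              simpa using this
            · simp only [Finset.mem_insert, Finset.mem_singleton, not_or]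
              refine ⟨fun h => hba h.symm, fun h => hb0 ?_⟩
              have : a + b = a := h.symm
              simpa using this
            · simp only [Finset.mem_insert, Finset.mem_singleton, not_or]
              refine ⟨fun h => ha0 h.symm, fun h => hb0 h.symm, fun h => hba ?_⟩
              have h3 : a + b = 0 := h.symm
              have h4 : b = -a := by rw [eq_neg_iff_add_eq_zero, add_comm]; exact h3
              rw [h4, neg_eq_iff_add_eq_zero]
              exact hneg a
          have heq := Finset.eq_of_subset_of_card_le hsub (by rw [hcard]; exact hTcard)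
          intro v hv
          rw [← heq] at hv
          simpa using hv
        · push Not at h2
          refine ⟨a, 0, fun v hv => ?_⟩
          by_cases hv0 : v = 0
          · exact Or.inl hv0
          · exact Or.inr (Or.inl (h2 v hv hv0))
      · push Not at h1
        exact ⟨0, 0, fun v hv => Or.inl (h1 v hv)⟩
    obtain ⟨a, b, hab⟩ := hab
    obtain ⟨j, hj⟩ := key_planes a b
    refine ⟨⟨0, j⟩, fun k hk hk' => ?_⟩
    have hki : k.i = 0 := hle hk
    have e1 : k = ⟨k.v, 0⟩ := by
      ext1
      · rfl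
      · exact hki
    have hkT : k.v ∈ T := (hT _).2 (by rw [← e1]; exact hk)
    have e2 : (⟨0, j⟩ : Gp)⁻¹ * k * ⟨0, j⟩ = ⟨act (-j) k.v, 0⟩ := by
      ext1
      · rw [mul_v, mul_v, inv_v, inv_i, mul_i, inv_i]
        simp only [act_map_zero, neg_zero, zero_add, add_zero]
      · rw [mul_i, mul_i, inv_i, hki]
        simp
    rw [e2] at hk'
    have hcT : act (-j) k.v ∈ T := (hT _).2 hk'
    have h0 := hj (act (-j) k.v) (hab _ hcT) (by rw [act_neg_cancel]; exact hab _ hkT)
    have hv0 : k.v = 0 := by
      have := act_neg_cancel j k.v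
      rw [h0, act_map_zero] at this
      exact this.symm
    rw [e1, hv0]; rfl
  · -- `H` contains an element outside `N`
    obtain ⟨h, hhH, hhN⟩ : ∃ h ∈ H, h.i ≠ 0 := by
      by_contra hcon
      push Not at hcon
      exact hle fun x hx => hcon x hx
    have hTzero : ∀ w ∈ T, w = 0 := by
      intro w hw
      by_contra hw0
      -- the orbit of `w`
      have hconj : ∀ u ∈ T, act h.i u ∈ T := by
        intro u hu
        have h1 := H.mul_mem (H.mul_mem hhH ((hT u).1 hu)) (H.inv_mem hhH)
        have e : h * ⟨u, 0⟩ * h⁻¹ = ⟨act h.i u, 0⟩ := by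
          ext1
          · rw [mul_v, mul_v, mul_i, inv_v]
            have : act (h.i + 0) (-act (-h.i) h.v) = -h.v := by
              rw [add_zero]
              have h2 : ∀ (i : ZMod 5) (x : V), act i (-x) = -act i x := by decide
              rw [h2, act_neg_cancel]
            change h.v + act h.i u + act (h.i + 0) (-act (-h.i) h.v) = act h.i u
            rw [this]; abel
          · rw [mul_i, mul_i, inv_i]
            change h.i + 0 + -h.i = 0
            ring
        rw [e] at h1
        exact (hT _).2 h1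
      have hsub : ({w, act h.i w, act h.i (act h.i w), act h.i (act h.i (act h.i w)),
          act h.i (act h.i (act h.i (act h.i w)))} : Finset V) ⊆ T := by
        intro x hx
        simp only [Finset.mem_insert, Finset.mem_singleton] at hx
        have a1 := hconj w hw
        have a2 := hconj _ a1
        have a3 := hconj _ a2
        have a4 := hconj _ a3
        rcases hx with rfl | rfl | rfl | rfl | rfl <;> assumption
      have h7 := key_orbit h.i w hhN hw0
      have h8 := Finset.card_le_card hsub
      have h9 : ({w, act h.i w, act h.i (act h.i w), act h.i (act h.i (act h.i w)),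
          act h.i (act h.i (act h.i (act h.i w)))} : Finset V).card = 5 := by
        convert h7
      omega
    have hHN : ∀ k ∈ H, k.i = 0 → k = 1 := by
      intro k hk hki
      have e1 : k = ⟨k.v, 0⟩ := by
        ext1
        · rfl
        · exact hki
      have := hTzero k.v ((hT _).2 (by rw [← e1]; exact hk))
      rw [e1, this]; rfl
    refine ⟨⟨(1, 0, 0, 0), 0⟩, fun k hk hk' => ?_⟩
    have h1 := H.mul_mem (H.inv_mem hk) hk'
    have h2 := hHN _ h1 (by
      rw [mul_i, mul_i, mul_i, inv_i, inv_i]
      change -k.i + (-0 + k.i + 0) = 0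
      ring)
    have h3 : (⟨(1, 0, 0, 0), 0⟩ : Gp)⁻¹ * k * ⟨(1, 0, 0, 0), 0⟩ = k := by
      have := congrArg (fun x => k * x) h2
      simpa [mul_assoc] using this
    have h4 : k * ⟨(1, 0, 0, 0), 0⟩ = ⟨(1, 0, 0, 0), 0⟩ * k := by
      calc k * ⟨(1, 0, 0, 0), 0⟩ = ⟨(1, 0, 0, 0), 0⟩ *
            ((⟨(1, 0, 0, 0), 0⟩ : Gp)⁻¹ * k * ⟨(1, 0, 0, 0), 0⟩) := by group
        _ = _ := by rw [h3]
    have h5 := congrArg Gp.v h4
    rw [mul_v, mul_v] at h5
    change k.v + act k.i (1, 0, 0, 0) = (1, 0, 0, 0) + act 0 k.v at h5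
    rw [act_zero, add_comm] at h5
    have h6 : act k.i (1, 0, 0, 0) = (1, 0, 0, 0) := add_right_cancel h5
    have key : ∀ i : ZMod 5, act i (1, 0, 0, 0) = (1, 0, 0, 0) → i = 0 := by decide
    exact hHN k hk (key _ h6)

/-- if all the intersections `H ∩ N` have index at most two in `N`, three points are no base. -/
lemma three_points {S : Type} [MulAction Gp S]
    (h : ∀ x : S, 4 < Nat.card ((MulAction.stabilizer Gp x).subgroupOf N)) (B : Finset S)
    (hB : B.card ≤ 3) : ¬ IsBase Gp S B := by
  classical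
  intro hbase
  have hidx : ∀ x : S, ((MulAction.stabilizer Gp x).subgroupOf N).index ≤ 2 := by
    intro x
    have h1 := Subgroup.card_mul_index ((MulAction.stabilizer Gp x).subgroupOf N)
    rw [card_N] at h1
    have h2 := h x
    have h3 : Nat.card ((MulAction.stabilizer Gp x).subgroupOf N) ∣ 16 := ⟨_, h1.symm⟩
    have h4 : Nat.card ((MulAction.stabilizer Gp x).subgroupOf N) ≤ 16 := Nat.le_of_dvd (by norm_num) h3
    by_contra hcon
    push Not at hcon
    have h5 : 5 * 3 ≤ Nat.card ((MulAction.stabilizer Gp x).subgroupOf N) *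
      ((MulAction.stabilizer Gp x).subgroupOf N).index := Nat.mul_le_mul h2 hcon
    -- the order is a divisor of 16 larger than 4, so at least 8
    have h6 : 8 ≤ Nat.card ((MulAction.stabilizer Gp x).subgroupOf N) := by
      generalize Nat.card ((MulAction.stabilizer Gp x).subgroupOf N) = c at h2 h3 h4
      interval_cases c <;> revert h3 <;> decide
    have h7 : 8 * 3 ≤ Nat.card ((MulAction.stabilizer Gp x).subgroupOf N) *
      ((MulAction.stabilizer Gp x).subgroupOf N).index := Nat.mul_le_mul h6 hcon
    omega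
  have hinf : ∀ C : Finset S, (C.inf fun x => (MulAction.stabilizer Gp x).subgroupOf N).index ≤
      2 ^ C.card := by
    intro C
    induction C using Finset.induction_on with
    | empty => simp
    | insert x C hx ih =>
      rw [Finset.inf_insert, Finset.card_insert_of_notMem hx, pow_succ]
      calc ((MulAction.stabilizer Gp x).subgroupOf N ⊓
            C.inf fun x => (MulAction.stabilizer Gp x).subgroupOf N).index
          ≤ ((MulAction.stabilizer Gp x).subgroupOf N).index *
            (C.inf fun x => (MulAction.stabilizer Gp x).subgroupOf N).index :=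
            Subgroup.index_inf_le
        _ ≤ 2 * 2 ^ C.card := Nat.mul_le_mul (hidx x) ih
        _ = 2 ^ C.card * 2 := mul_comm _ _
  have h1 := hinf B
  have h2 : 2 ^ B.card ≤ 8 := by
    calc 2 ^ B.card ≤ 2 ^ 3 := Nat.pow_le_pow_right (by norm_num) hB
      _ = 8 := by norm_num
  have hbot : (B.inf fun x => (MulAction.stabilizer Gp x).subgroupOf N) = ⊥ := by
    rw [eq_bot_iff]
    intro g hg
    rw [Subgroup.mem_bot]
    apply Subtype.ext
    apply hbase
    intro x hx
    have : g ∈ (MulAction.stabilizer Gp x).subgroupOf N :=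
      (Finset.inf_le hx : (B.inf fun x => (MulAction.stabilizer Gp x).subgroupOf N) ≤ _) hg
    exact this
  rw [hbot, Subgroup.index_bot, card_N] at h1
  omega

lemma three_not_mem : 3 ∉ baseSizeSet Gp := by
  classical
  rintro ⟨S, _, _, _, h3⟩
  have hne : {n | ∃ B : Finset S, B.card = n ∧ IsBase Gp S B}.Nonempty := by
    by_contra hcon
    rw [Set.not_nonempty_iff_eq_empty] at hcon
    unfold baseSize at h3
    rw [hcon, Nat.sInf_empty] at h3
    omega
  have hmem := Nat.sInf_mem hne
  obtain ⟨B, hB, hbase⟩ := hmem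
  have hB3 : B.card ≤ 3 := by
    rw [hB]; exact h3.le
  by_cases h : ∀ x : S, 4 < Nat.card ((MulAction.stabilizer Gp x).subgroupOf N)
  · exact three_points h B hB3 hbase
  · push Not at h
    obtain ⟨x, hx⟩ := h
    obtain ⟨g, hg⟩ := two_points _ hx
    have h2 : baseSize Gp S ≤ ({x, g • x} : Finset S).card := by
      apply Nat.sInf_le
      refine ⟨{x, g • x}, rfl, fun k hk => ?_⟩
      have k1 := hk x (by simp)
      have k2 := hk (g • x) (by simp)
      apply hg k k1
      rw [MulAction.mem_stabilizer_iff, mul_smul, mul_smul, k2, inv_smul_smul]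
    have h4 : ({x, g • x} : Finset S).card ≤ 2 := Finset.card_le_two
    omega

/-- the functional -/
def lam (k : ZMod 5) (v : V) : ZMod 2 := (act (-k) v).2.2.2

lemma lam_add (k : ZMod 5) (v w : V) : lam k (v + w) = lam k v + lam k w := by
  unfold lam; rw [act_lin]; rfl

lemma lam_act (k i : ZMod 5) (v : V) : lam (k + i) (act i v) = lam k v := by
  unfold lam; rw [← act_add]; congr 5; ring_nf

/-- the action on ten points -/
abbrev Ten : Type := ZMod 5 × ZMod 2

instance : MulAction Gp Ten where
  smul g x := (x.1 + g.i, x.2 + lam (x.1 + g.i) g.v)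
  one_smul x := by
    change (x.1 + 0, x.2 + lam (x.1 + 0) 0) = x
    have : ∀ k, lam k 0 = 0 := by decide
    rw [this, add_zero, add_zero]
  mul_smul g h x := by
    change (x.1 + (g.i + h.i), x.2 + lam (x.1 + (g.i + h.i)) (g.v + act g.i h.v)) =
      (x.1 + h.i + g.i, x.2 + lam (x.1 + h.i) h.v + lam (x.1 + h.i + g.i) g.v)
    have e : x.1 + (g.i + h.i) = x.1 + h.i + g.i := by ring
    rw [e, lam_add, lam_act]
    ext1
    · rfl
    · simp only
      ring

lemma smul_def (g : Gp) (x : Ten) : g • x = (x.1 + g.i, x.2 + lam (x.1 + g.i) g.v) := rfl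

lemma base_four : IsBase Gp Ten {(0, 0), (1, 0), (2, 0), (3, 0)} := by
  intro g hg
  have h0 := hg (0, 0) (by decide)
  have h1 := hg (1, 0) (by decide)
  have h2 := hg (2, 0) (by decide)
  have h3 := hg (3, 0) (by decide)
  rw [smul_def] at h0 h1 h2 h3
  obtain ⟨v, i⟩ := g
  have hi : i = 0 := by simpa using congrArg Prod.fst h0
  subst hi
  have k0 : lam 0 v = 0 := by simpa using congrArg Prod.snd h0
  have k1 : lam 1 v = 0 := by simpa using congrArg Prod.snd h1
  have k2 : lam 2 v = 0 := by simpa using congrArg Prod.snd h2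
  have k3 : lam 3 v = 0 := by simpa using congrArg Prod.snd h3
  have key : ∀ v : V, lam 0 v = 0 → lam 1 v = 0 → lam 2 v = 0 → lam 3 v = 0 → v = 0 := by
    decide
  rw [key v k0 k1 k2 k3]
  rfl

lemma stab_big (x : Ten) : 4 < Nat.card ((MulAction.stabilizer Gp x).subgroupOf N) := by
  classical
  have e : {v : V // lam x.1 v = 0} ≃ (MulAction.stabilizer Gp x).subgroupOf N :=
    ⟨fun v => ⟨⟨⟨v.1, 0⟩, rfl⟩, by
      rw [Subgroup.mem_subgroupOf, MulAction.mem_stabilizer_iff, smul_def]
      change (x.1 + 0, x.2 + lam (x.1 + 0) v.1) = x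
      rw [add_zero, v.2, add_zero]⟩,
    fun g => ⟨g.1.1.v, by
      have h1 : g.1.1 • x = x := g.2
      have h2 : g.1.1.i = 0 := g.1.2
      rw [smul_def, h2, add_zero] at h1
      simpa using congrArg Prod.snd h1⟩,
    fun v => rfl, by
      rintro ⟨⟨g, hg⟩, hg'⟩
      apply Subtype.ext
      apply Subtype.ext
      ext1
      · rfl
      · exact hg.symm⟩
  rw [← Nat.card_congr e, Nat.card_eq_fintype_card, Fintype.card_subtype]
  have key : ∀ k : ZMod 5, 4 < (Finset.univ.filter fun v : V => lam k v = 0).card := by decide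
  exact key x.1

lemma four_mem : 4 ∈ baseSizeSet Gp := by
  refine ⟨Ten, inferInstance, inferInstance, ⟨?_⟩, ?_⟩
  · intro g h hgh
    have : g⁻¹ * h = 1 := base_four _ fun x _ => by
      rw [mul_smul, ← hgh x, inv_smul_smul]
    exact (inv_mul_eq_one.1 this)
  · apply le_antisymm
    · apply Nat.sInf_le
      exact ⟨_, by decide, base_four⟩
    · refine le_csInf ⟨4, _, by decide, base_four⟩ ?_
      rintro n ⟨B, hB, hbase⟩
      by_contra hcon
      push Not at hcon
      exact three_points stab_big B (by omega) hbase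

/-- **Q1 is false**: there is a nontrivial finite group `G` (of order 80) with `4 ∈ 𝓑(G)` and
`3 ∉ 𝓑(G)`; so `𝓑(G)` is not of the form `{1, …, k}`. -/
theorem result : ∃ (G : Type) (_ : Group G), Finite G ∧ Nontrivial G ∧
    4 ∈ baseSizeSet G ∧ 3 ∉ baseSizeSet G ∧ ∀ k : ℕ, baseSizeSet G ≠ Set.Icc 1 k := by
  refine ⟨Gp, inferInstance, inferInstance, ⟨⟨1, ⟨(1, 0, 0, 0), 0⟩, by decide⟩⟩, four_mem,
    three_not_mem, fun k hk => ?_⟩
  have h4 := four_mem
  have h3 := three_not_mem
  rw [hk] at h4 h3
  exact h3 ⟨by norm_num, le_trans (by norm_num) h4.2⟩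

end Pool.Agent.Results.MP_2beb52_al.BaseSizeGap
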